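import Pool.Agent.Lib.helper16.MadA

namespace Pool.Agent.Results.MP_af84fe_lc.NoMad

open Set Filter Topology MeasureTheory Pool.Agent.Lib.helper16.Mad

/-- A point `A` of Cantor space is the set `{i | A i = true}`; `cnt A n = |A ∩ {0,…,n-1}|`. -/
def cnt (A : ℕ → Bool) (n : ℕ) : ℕ := ((Finset.range n).filter (fun i => A i = true)).card

/-- `A` has asymptotic density zero. -/
def Z0 (A : ℕ → Bool) : Prop := Tendsto (fun n : ℕ => (cnt A n : ℝ) / n) atTop (𝓝 0)

/-- Intersection of two sets. -/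
def meet (A B : ℕ → Bool) : ℕ → Bool := fun i => A i && B i

/-- A maximal almost disjoint family for the density zero ideal. -/
def IsMAD (M : Set (ℕ → Bool)) : Prop :=
  (∀ A ∈ M, ¬ Z0 A) ∧ (∀ A ∈ M, ∀ B ∈ M, A ≠ B → Z0 (meet A B)) ∧
    ∀ X, ¬ Z0 X → ∃ A ∈ M, ¬ Z0 (meet X A)

lemma z0_iff (A : ℕ → Bool) : Z0 A ↔ ∀ d : ℕ, ∀ᶠ n in atTop, (d + 1) * cnt A n ≤ n := by
  constructor
  · intro h d
    filter_upwards [h.eventually (gt_mem_nhds (show (0 : ℝ) < 1 / (d + 1) by positivity)),
      eventually_gt_atTop 0] with n h1 h2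
    rw [div_lt_div_iff₀ (by exact_mod_cast h2) (by positivity), one_mul, mul_comm] at h1
    exact_mod_cast h1.le
  · intro h
    rw [Z0, tendsto_order]
    refine ⟨fun a ha => Eventually.of_forall (fun n => lt_of_lt_of_le ha (by positivity)),
      fun a ha => ?_⟩
    obtain ⟨d, hd⟩ := exists_nat_one_div_lt ha
    filter_upwards [h d, eventually_gt_atTop 0] with n h1 h2
    refine lt_of_le_of_lt ?_ hd
    rw [div_le_div_iff₀ (by exact_mod_cast h2) (by positivity), one_mul, mul_comm]
    exact_mod_cast h1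

lemma cnt_mono {A B : ℕ → Bool} (h : ∀ i, A i = true → B i = true) (n : ℕ) : cnt A n ≤ cnt B n :=
  Finset.card_le_card (Finset.monotone_filter_right _ (fun i _ => h i))

lemma incl [DecidableEq (ℕ → Bool)] (F : Finset (ℕ → Bool)) (n : ℕ) :
    ∑ a ∈ F, cnt a n ≤ n + ∑ a ∈ F, ∑ b ∈ F.erase a, cnt (meet a b) n := by
  simp only [cnt, Finset.card_filter]
  have e : ∑ a ∈ F, ∑ b ∈ F.erase a, ∑ i ∈ Finset.range n, (if meet a b i = true then 1 else 0) =
      ∑ i ∈ Finset.range n, ∑ a ∈ F, ∑ b ∈ F.erase a, (if meet a b i = true then 1 else 0) := by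
    rw [Finset.sum_comm (s := Finset.range n)]
    exact Finset.sum_congr rfl (fun a _ => Finset.sum_comm)
  rw [e, Finset.sum_comm]
  conv_rhs => enter [1]; rw [← Finset.card_range n, Finset.card_eq_sum_ones]
  rw [← Finset.sum_add_distrib]
  refine Finset.sum_le_sum (fun i _ => ?_)
  by_cases h : ∃ a ∈ F, a i = true
  · obtain ⟨a, ha, hi⟩ := h
    rw [← Finset.add_sum_erase _ _ ha, if_pos hi]
    refine Nat.add_le_add_left (le_trans ?_ (Finset.single_le_sum
      (f := fun a => ∑ b ∈ F.erase a, (if meet a b i = true then 1 else 0))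
      (fun _ _ => Nat.zero_le _) ha)) 1
    simp [meet, hi]
  · rw [Finset.sum_eq_zero (fun a ha => if_neg (fun h' => h ⟨a, ha, h'⟩))]
    exact Nat.zero_le _

lemma loc {f : (ℕ → ℕ) → ℕ → Bool} (hf : Continuous f) (x : ℕ → ℕ) (N : ℕ) :
    ∃ k, ∀ y, Ag k x y → ∀ i < N, f y i = f x i := by
  obtain ⟨_, ⟨z, k, rfl⟩, h1, h2⟩ := (PiNat.isTopologicalBasis_cylinders (fun _ => ℕ)).exists_subset_of_mem_open
    (a := x) (u := f ⁻¹' PiNat.cylinder (f x) N) (PiNat.self_mem_cylinder _ _)
    ((PiNat.isOpen_cylinder (fun _ => Bool) (f x) N).preimage hf)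
  exact ⟨k, fun y hy => h2 (fun i hi => (hy i hi).trans (h1 i hi))⟩

lemma geo {n : ℕ → ℕ} (h : ∀ w, 2 * n w ≤ n (w + 1)) (M L : ℕ) :
    ∑ w ∈ (Finset.range L).filter (fun w => n w ≤ M), n w ≤ 2 * M := by
  have h1 : ∀ L, ∑ w ∈ Finset.range L, n w ≤ n L := by
    intro L
    induction L with
    | zero => simp
    | succ L ih => rw [Finset.sum_range_succ]; have := h L; omega
  induction L with
  | zero => simp
  | succ L ih =>
    by_cases hL : n L ≤ M
    · refine (Finset.sum_le_sum_of_subset (Finset.filter_subset _ _)).trans ?_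
      rw [Finset.sum_range_succ]
      have := h1 L
      omega
    · rwa [Finset.range_add_one, Finset.filter_insert, if_neg hL]

theorem result (M : Set (ℕ → Bool)) (hA : AnalyticSet M) (hM : IsMAD M) : M.Countable := by
  have _i := Classical.decEq (ℕ → Bool)
  by_contra hc
  rw [AnalyticSet] at hA
  rcases hA with rfl | ⟨f, hf, rfl⟩
  · exact hc countable_empty
  obtain ⟨m1, m2, m3⟩ := hM
  obtain ⟨d, hd⟩ : ∃ d : ℕ, {A ∈ range f | ∃ᶠ n in atTop, n < (d + 1) * cnt A n}.Infinite := by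
    by_contra h
    push Not at h
    refine hc ((countable_iUnion (fun d => (h d).countable)).mono (fun A hA => ?_))
    have := m1 A hA
    rw [z0_iff] at this
    push Not at this
    obtain ⟨d, hd⟩ := this
    exact mem_iUnion.2 ⟨d, hA, hd⟩
  let A : ℕ → ℕ → Bool := fun i => (hd.natEmbedding _ i).1
  have Ai : Function.Injective A := fun i j h => (hd.natEmbedding _).injective (Subtype.ext h)
  have Am : ∀ i, A i ∈ range f := fun i => (hd.natEmbedding _ i).2.1
  choose g g1 g2 using fun i N => frequently_atTop.1 (hd.natEmbedding _ i).2.2 N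
  let n : ℕ → ℕ := fun w => Nat.rec (g (Nat.unpair 0).1 0)
    (fun w r => g (Nat.unpair (w + 1)).1 (2 * r + 1)) w
  have n1 : ∀ w, 2 * n w + 1 ≤ n (w + 1) := fun w => g1 _ _
  have n2 : ∀ w, n w < (d + 1) * cnt (A (Nat.unpair w).1) (n w) := by
    intro w
    cases w <;> exact g2 _ _
  have n3 : StrictMono n := strictMono_nat_of_lt_succ (fun w => by have := n1 w; omega)
  have n4 : ∀ N, {w | n w < N}.Finite := fun N =>
    (Set.finite_Iio N).subset (fun w hw => lt_of_le_of_lt (n3.id_le w) hw)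
  let S : (ℕ → Bool) → ℕ → Set ℕ := fun a e =>
    {w | n w < (e + 1) * cnt (meet a (A (Nat.unpair w).1)) (n w)}
  refine no_mad (f := f) (S := S) ?_ ?_ ?_ ?_ ?_ ?_
  · intro a e e' h w hw
    exact lt_of_lt_of_le hw (Nat.mul_le_mul_right _ (by omega))
  · intro x w e hw
    obtain ⟨k, hk⟩ := loc hf x (n w)
    refine ⟨k, fun y hy => ?_⟩
    have : cnt (meet (f y) (A (Nat.unpair w).1)) (n w) =
        cnt (meet (f x) (A (Nat.unpair w).1)) (n w) := by
      unfold cnt meet
      congr 1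
      exact Finset.filter_congr (fun i hi => by rw [hk y hy i (Finset.mem_range.1 hi)])
    show n w < _
    rw [this]
    exact hw
  · intro x y hxy
    obtain ⟨i, hi⟩ := Function.ne_iff.1 hxy
    obtain ⟨k, hk⟩ := loc hf x (i + 1)
    obtain ⟨l, hl⟩ := loc hf y (i + 1)
    refine ⟨k + l, fun x' y' h1 h2 h => hi ?_⟩
    rw [← hk x' (fun j hj => h1 j (by omega)) i (by omega),
      ← hl y' (fun j hj => h2 j (by omega)) i (by omega), h]
  · intro e
    refine ⟨2 * (e + 1), fun F hF hK => ?_⟩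
    have b : ∀ᶠ N in atTop, ∀ a ∈ F, ∀ b ∈ F.erase a,
        (F.card * F.card + 1) * cnt (meet a b) N ≤ N := by
      simp only [Filter.eventually_all_finset]
      intro a ha b hb
      exact (z0_iff _).1 (m2 a (hF ha) b (hF (Finset.mem_of_mem_erase hb))
        (Finset.ne_of_mem_erase hb).symm) _
    obtain ⟨N, hN⟩ := eventually_atTop.1 b
    refine (n4 N).subset (fun w hw => ?_)
    by_contra hlt
    have h1 := hN (n w) (not_lt.1 hlt)
    have h2 := incl F (n w)
    have h3 : ∑ a ∈ F, (n w + 1) ≤ ∑ a ∈ F, (e + 1) * cnt a (n w) := by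
      refine Finset.sum_le_sum (fun a ha => ?_)
      have h4 : w ∈ S a e := mem_iInter₂.1 hw a ha
      exact lt_of_lt_of_le h4 (Nat.mul_le_mul_left _ (cnt_mono (by simp [meet]; tauto) _))
    rw [Finset.sum_const, ← Finset.mul_sum, smul_eq_mul] at h3
    have h5 : (F.card * F.card + 1) * ∑ a ∈ F, ∑ b ∈ F.erase a, cnt (meet a b) (n w) ≤
        F.card * (F.card * n w) := by
      rw [Finset.mul_sum]
      refine (Finset.sum_le_card_nsmul _ _ (F.card * n w) (fun a ha => ?_))
      rw [Finset.mul_sum]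
      refine (Finset.sum_le_card_nsmul _ _ (n w) (h1 a ha)).trans ?_
      exact Nat.mul_le_mul_right _ Finset.card_erase_le
    have h6 : ∑ a ∈ F, ∑ b ∈ F.erase a, cnt (meet a b) (n w) ≤ n w := by
      by_contra h7
      nlinarith
    have h8 : 2 * (n w + 1) ≤ ∑ a ∈ F, cnt a (n w) :=
      Nat.le_of_mul_le_mul_left (c := e + 1) (by nlinarith) (by omega)
    omega
  · intro Y hY
    let X : ℕ → Bool := fun i =>
      @decide (∃ w ∈ Y, A (Nat.unpair w).1 i = true ∧ n w ≤ 2 * (d + 1) * i ∧ i < n w)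
        (Classical.propDecidable _)
    have hX : ¬ Z0 X := by
      rw [z0_iff]
      intro h
      obtain ⟨N, hN⟩ := eventually_atTop.1 (h (4 * d + 3))
      obtain ⟨w, w1, w2⟩ := hY.exists_gt (N + 4 * (d + 1))
      have w3 : w ≤ n w := n3.id_le w
      have h1 := hN (n w) (by omega)
      have h2 := n2 w
      have h3 : cnt (A (Nat.unpair w).1) (n w) ≤ cnt X (n w) + (n w / (2 * (d + 1)) + 1) := by
        unfold cnt
        rw [← Finset.card_range (n w / (2 * (d + 1)) + 1)]
        refine le_trans (Finset.card_le_card (fun i hi => ?_)) (Finset.card_union_le _ _)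
        simp only [Finset.mem_filter, Finset.mem_range, Finset.mem_union] at hi ⊢
        rcases le_or_gt (n w) (2 * (d + 1) * i) with h4 | h4
        · exact Or.inl ⟨hi.1, @decide_eq_true _ (Classical.propDecidable _) ⟨w, w1, hi.2, h4, hi.1⟩⟩
        · right
          rw [Nat.lt_succ_iff, Nat.le_div_iff_mul_le (by omega), mul_comm]
          omega
      have h5 := Nat.div_mul_le_self (n w) (2 * (d + 1))
      nlinarith
    obtain ⟨_, ⟨x, rfl⟩, hx⟩ := m3 X hX
    by_contra hno
    push Not at hno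
    apply hx
    rw [z0_iff]
    intro D
    obtain ⟨w0, hw0⟩ := (hno x (8 * (d + 1) * (D + 1))).bddAbove
    filter_upwards [eventually_ge_atTop (2 * (D + 1) * n w0)] with N hN
    let T : Finset ℕ := @Finset.filter ℕ (fun w => w ∈ Y ∧ w0 < w) (Classical.decPred _)
      (@Finset.filter ℕ (fun w => n w ≤ 2 * (d + 1) * N) (fun _ => Nat.decLe _ _)
        (Finset.range (2 * (d + 1) * N + 1)))
    have h1 : cnt (meet X (f x)) N ≤
        n w0 + ∑ w ∈ T, cnt (meet (f x) (A (Nat.unpair w).1)) (n w) := by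
      unfold cnt
      rw [← Finset.card_range (n w0)]
      refine le_trans (Finset.card_le_card (fun i hi => ?_)) ((Finset.card_union_le _ _).trans
        (Nat.add_le_add_left Finset.card_biUnion_le _))
      simp only [Finset.mem_filter, Finset.mem_range, Finset.mem_union, meet, Bool.and_eq_true,
        X, decide_eq_true_eq, Finset.mem_biUnion, T] at hi ⊢
      obtain ⟨i1, ⟨w, w1, w2, w3, w4⟩, i2⟩ := hi
      by_cases h4 : w0 < w
      · have w5 : n w ≤ 2 * (d + 1) * N := w3.trans (Nat.mul_le_mul_left _ i1.le)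
        have w6 : w ≤ n w := n3.id_le w
        exact Or.inr ⟨w, ⟨⟨by omega, w5⟩, w1, h4⟩, w4, i2, w2⟩
      · exact Or.inl (lt_of_lt_of_le w4 (n3.monotone (not_lt.1 h4)))
    have h2 : (8 * (d + 1) * (D + 1) + 1) *
        ∑ w ∈ T, cnt (meet (f x) (A (Nat.unpair w).1)) (n w) ≤ 2 * (2 * (d + 1) * N) := by
      rw [Finset.mul_sum]
      refine le_trans (Finset.sum_le_sum (g := n) (fun w hw => ?_))
        ((Finset.sum_le_sum_of_subset (@Finset.filter_subset _ _ (Classical.decPred _) _)).trans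
          (geo (fun w => by have := n1 w; omega) _ _))
      obtain ⟨_, w1, w2⟩ := (@Finset.mem_filter _ _ (Classical.decPred _) _ _).1 hw
      exact not_lt.1 (fun h3 => absurd (hw0 ⟨w1, h3⟩) (not_le.2 w2))
    have h3 : 2 * (D + 1) * ∑ w ∈ T, cnt (meet (f x) (A (Nat.unpair w).1)) (n w) ≤ N :=
      Nat.le_of_mul_le_mul_left (c := 4 * (d + 1)) (by
        generalize ∑ w ∈ T, cnt (meet (f x) (A (Nat.unpair w).1)) (n w) = s at h2 ⊢
        calc _ = 8 * (d + 1) * (D + 1) * s := by ring
          _ ≤ (8 * (d + 1) * (D + 1) + 1) * s := Nat.mul_le_mul_right _ (Nat.le_succ _)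
          _ ≤ _ := h2.trans (le_of_eq (by ring))) (by omega)
    nlinarith
  · rintro ⟨F, e, F1, F2⟩
    obtain ⟨i, hi⟩ : ∃ i, A i ∉ F := by
      by_contra h
      push Not at h
      exact Set.infinite_range_of_injective Ai (F.finite_toSet.subset (range_subset_iff.2 h))
    have b : ∀ᶠ N in atTop, ∀ a ∈ F, (e + 1) * cnt (meet a (A i)) N ≤ N := by
      simp only [Filter.eventually_all_finset]
      intro a ha
      exact (z0_iff _).1 (m2 a (F1 ha) _ (Am i) (fun h => hi (h ▸ ha))) _
    obtain ⟨N, hN⟩ := eventually_atTop.1 b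
    obtain ⟨L, hL⟩ := F2.bddAbove
    have h1 : N + L + 1 ≤ Nat.pair i (N + L + 1) := Nat.right_le_pair _ _
    have h2 : Nat.pair i (N + L + 1) ≤ n (Nat.pair i (N + L + 1)) := n3.id_le _
    have h3 : Nat.pair i (N + L + 1) ≤ L := hL ⟨trivial, fun h => by
      obtain ⟨a, ha, h⟩ := mem_iUnion₂.1 h
      have h4 := hN (n (Nat.pair i (N + L + 1))) (by omega) a ha
      simp only [S, mem_ofPred_eq, Nat.unpair_pair] at h
      omega⟩
    omega

end Pool.Agent.Results.MP_af84fe_lc.NoMad
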